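import Mathlib
import Pool.Agent.P.MP_33ac70_nt.Blocks

namespace Pool.Agent.Results.MP_33ac70_nt.Counterexample

open MeasureTheory Filter Set

/-- The solutions `(a_1, ..., a_k, b)` in positive integers of
`|∑ a_j ^ θ - b| ≤ ρ (max a) / (max a) ^ k`. -/
def solutions (k : ℕ) (ρ : ℕ → ℝ) (θ : ℝ) : Set ((Fin k → ℕ) × ℕ) :=
  {p | (∀ j, 1 ≤ p.1 j) ∧ 1 ≤ p.2 ∧
    |∑ j, (p.1 j : ℝ) ^ θ - (p.2 : ℝ)| ≤
      ρ (Finset.univ.sup p.1) / ((Finset.univ.sup p.1 : ℕ) : ℝ) ^ k}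

/-- The divergence statement fails for `k = 1`: there is a nonnegative `ρ` with
`∑ ρ m / m = ∞` such that almost every `θ ∈ (0,1)` has only finitely many solutions. -/
theorem result : ∃ ρ : ℕ → ℝ, (∀ m, 0 ≤ ρ m) ∧
    Tendsto (fun n : ℕ => ∑ m ∈ Finset.Icc 1 n, ρ m / (m : ℝ)) atTop atTop ∧
    ∀ᵐ θ : ℝ, θ ∈ Ioo (0 : ℝ) 1 → (solutions 1 ρ θ).Finite := by
  refine ⟨fun m => m * P.MP_33ac70_nt.psi m,
    fun m => mul_nonneg (Nat.cast_nonneg m) (P.MP_33ac70_nt.psi_nonneg m), ?_, ?_⟩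
  · have h1 : ¬ Summable (fun m => P.MP_33ac70_nt.psi (m + 1)) := fun h =>
      P.MP_33ac70_nt.not_summable_psi ((summable_nat_add_iff 1).mp h)
    have h2 := (not_summable_iff_tendsto_nat_atTop_of_nonneg
      (fun m => P.MP_33ac70_nt.psi_nonneg (m + 1))).mp h1
    refine h2.congr (fun n => ?_)
    induction n with
    | zero => simp
    | succ n ih =>
      rw [Finset.sum_range_succ, Finset.sum_Icc_succ_top (by omega), ih]
      congr 1
      have : ((n + 1 : ℕ) : ℝ) ≠ 0 := by positivity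
      field_simp
  · filter_upwards [P.MP_33ac70_nt.ae_bounded] with θ h hθ
    obtain ⟨M, hM⟩ := h hθ
    have hfin : (Set.pi univ (fun _ : Fin 1 => Iic M) ×ˢ Iic M).Finite :=
      (Set.Finite.pi (fun _ => finite_Iic M)).prod (finite_Iic M)
    refine hfin.subset ?_
    rintro ⟨a, b⟩ ⟨ha, hb, hab⟩
    have hsup : Finset.univ.sup a = a 0 := by simp
    simp only [hsup, Fin.sum_univ_one, pow_one] at hab
    have ha0 : ((a 0 : ℕ) : ℝ) ≠ 0 := by
      have := ha 0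
      positivity
    rw [mul_div_cancel_left₀ _ ha0] at hab
    obtain ⟨h1, h2⟩ := hM (a 0) b (ha 0) hb hab
    refine ⟨fun i _ => ?_, h2⟩
    rw [Subsingleton.elim i 0]
    exact h1

end Pool.Agent.Results.MP_33ac70_nt.Counterexample
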