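import Mathlib
import Pool.Agent.P.MP_33ac70_nt.CrMain

namespace Pool.Agent.Results.MP_33ac70_nt.Criterion

open MeasureTheory Filter Set
open scoped ENNReal

/-- The solutions `(a, b)` in positive integers of `|a ^ θ - b| ≤ ρ a / a`. -/
def solutions (ρ : ℕ → ℝ) (θ : ℝ) : Set (ℕ × ℕ) :=
  {p | 1 ≤ p.1 ∧ 1 ≤ p.2 ∧ |(p.1 : ℝ) ^ θ - (p.2 : ℝ)| ≤ ρ p.1 / (p.1 : ℝ)}

/-- The union over `m ∈ S` of the intervals with centre `m ^ θ` and radius `ρ m / m`. -/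
def cover (S : Set ℕ) (ρ : ℕ → ℝ) (θ : ℝ) : Set ℝ :=
  ⋃ m ∈ S, Icc ((m : ℝ) ^ θ - ρ m / (m : ℝ)) ((m : ℝ) ^ θ + ρ m / (m : ℝ))

/-- For `k = 1` and almost every `θ > 0`: if for some `σ < θ / 3` the intervals of radius less than
`m ^ (-σ)` cover a set of finite measure, then there are infinitely many solutions exactly when
all the intervals together cover a set of infinite measure. -/
theorem result (ρ : ℕ → ℝ) (h0 : ∀ m, 0 ≤ ρ m) :
    ∀ᵐ θ : ℝ, 0 < θ → ∀ σ : ℝ, 3 * σ < θ →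
      volume (cover {m | 1 ≤ m ∧ ρ m / (m : ℝ) < (m : ℝ) ^ (-σ)} ρ θ) ≠ ∞ →
      ((solutions ρ θ).Infinite ↔ volume (cover {m | 1 ≤ m} ρ θ) = ∞) := by
  have h1 : ∀ m : ℕ, 0 ≤ ρ m / m := fun m => div_nonneg (h0 m) (Nat.cast_nonneg m)
  have h2 := P.MP_33ac70_nt.Cr.ae_of_lt neg_injective
    (Θ := {t | volume (cover {m | 1 ≤ m} ρ t) ≠ ∞})
    (P := fun θ => 0 < θ → (solutions ρ θ).Finite) fun t ht => by
      filter_upwards [P.MP_33ac70_nt.Cr.conv_half h1 ht] with θ h3 h4 using h3 (neg_lt_neg_iff.1 h4)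
  have h3 : ∀ᵐ θ : ℝ, ∀ q : ℚ, (0 : ℝ) ≤ q → 0 ≤ θ ∧ volume
      (cover {m | 1 ≤ m ∧ (m : ℝ) ^ (-(q : ℝ)) ≤ ρ m / (m : ℝ)} ρ θ) = ∞ → 3 * (q : ℝ) < θ →
      (solutions ρ θ).Infinite := by
    refine ae_all_iff.2 fun q => ?_
    by_cases hq : (0 : ℝ) ≤ q
    swap
    · exact .of_forall fun θ h => absurd h hq
    filter_upwards [P.MP_33ac70_nt.Cr.ae_of_lt Function.injective_id
      (Θ := {t | 0 ≤ t ∧ volume
        (cover {m | 1 ≤ m ∧ (m : ℝ) ^ (-(q : ℝ)) ≤ ρ m / (m : ℝ)} ρ t) = ∞})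
      (P := fun θ => 3 * (q : ℝ) < θ → (solutions ρ θ).Infinite) fun t ht => by
        filter_upwards [P.MP_33ac70_nt.Cr.div_half h1 hq ht.1 ht.2] with θ h4 h5 h6
        refine Set.Infinite.of_image Prod.fst (Set.infinite_of_forall_exists_gt fun M => ?_)
        obtain ⟨m, b, h7, h8⟩ := h4 h5 h6 (M + 1)
        exact ⟨m, ⟨(m, b), h8, rfl⟩, h7⟩] with θ h4 _ using h4
  filter_upwards [h2, h3] with θ h4 h5 hθ σ hσ hthin
  refine ⟨fun h6 => by_contra fun h7 => h6 (h4 h7 hθ), fun h6 => ?_⟩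
  obtain ⟨q, q1, q2⟩ := exists_rat_btwn (show max σ 0 < θ / 3 from max_lt (by linarith) (by linarith))
  refine h5 q ((le_max_right _ _).trans q1.le) ⟨hθ.le, by_contra fun h7 => ?_⟩ (by linarith)
  refine ne_top_of_le_ne_top (ENNReal.add_ne_top.2 ⟨h7, hthin⟩)
    (le_trans (measure_mono ?_) (measure_union_le _ _)) h6
  unfold cover
  rw [← biUnion_union]
  refine biUnion_subset_biUnion_left fun m hm => ?_
  by_cases h8 : ρ m / (m : ℝ) < (m : ℝ) ^ (-σ)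
  · exact Or.inr ⟨hm, h8⟩
  · exact Or.inl ⟨hm, le_trans (Real.rpow_le_rpow_of_exponent_le (by exact_mod_cast hm)
      (by linarith [le_max_left σ 0])) (not_lt.1 h8)⟩

end Pool.Agent.Results.MP_33ac70_nt.Criterion
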