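import Mathlib
import Pool.Agent.P.MP_33ac70_nt.Main

namespace Pool.Agent.Results.MP_33ac70_nt.LargeExponent

open MeasureTheory Filter Set

/-- The solutions `(a_1, ..., a_k, b)` in positive integers of
`|∑ a_j ^ θ - b| ≤ ρ (max a) / (max a) ^ k`. -/
def solutions (k : ℕ) (ρ : ℕ → ℝ) (θ : ℝ) : Set ((Fin k → ℕ) × ℕ) :=
  {p | (∀ j, 1 ≤ p.1 j) ∧ 1 ≤ p.2 ∧
    |∑ j, (p.1 j : ℝ) ^ θ - (p.2 : ℝ)| ≤
      ρ (Finset.univ.sup p.1) / ((Finset.univ.sup p.1 : ℕ) : ℝ) ^ k}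

/-- The divergence statement holds for large exponents: for every `k ≥ 1` and every nonnegative
`ρ` with `∑ ρ m / m = ∞`, almost every `θ > 4 k ^ 2 - k` has infinitely many solutions. -/
theorem result (k : ℕ) (hk : 1 ≤ k) (ρ : ℕ → ℝ) (h0 : ∀ m, 0 ≤ ρ m)
    (hdiv : Tendsto (fun n : ℕ => ∑ m ∈ Finset.Icc 1 n, ρ m / (m : ℝ)) atTop atTop) :
    ∀ᵐ θ : ℝ, 4 * (k : ℝ) ^ 2 - k < θ → (solutions k ρ θ).Infinite := by
  obtain ⟨k, rfl⟩ : ∃ j, k = j + 1 := ⟨k - 1, by omega⟩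
  have hs : ¬ Summable fun m : ℕ => ρ m / m := fun h => by
    obtain ⟨n, hn⟩ := (hdiv.eventually_gt_atTop (∑' m : ℕ, ρ m / m)).exists
    exact hn.not_ge (h.sum_le_tsum _ fun m _ => div_nonneg (h0 m) (Nat.cast_nonneg m))
  filter_upwards [P.MP_33ac70_nt.Big.ae_large (k := k) h0 hs] with θ h hθ
  refine Set.Infinite.of_image (fun p => p.1 0) (Set.infinite_of_forall_exists_gt fun M => ?_)
  obtain ⟨a, b, h1, h2, h3, h4, h5⟩ := h (by exact_mod_cast hθ) (M + 1)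
  exact ⟨a 0, ⟨(a, b), ⟨h1, h2, by simpa only [h4] using h5⟩, rfl⟩, h3⟩

end Pool.Agent.Results.MP_33ac70_nt.LargeExponent
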