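import Mathlib
import Pool.Agent.P.MP_33ac70_nt.CrMono

namespace Pool.Agent.Results.MP_33ac70_nt.MonotoneSmall

open MeasureTheory Filter Set

/-- The solutions `(a, b)` in positive integers of `|a ^ θ - b| ≤ ρ a / a`. -/
def solutions (ρ : ℕ → ℝ) (θ : ℝ) : Set (ℕ × ℕ) :=
  {p | 1 ≤ p.1 ∧ 1 ≤ p.2 ∧ |(p.1 : ℝ) ^ θ - (p.2 : ℝ)| ≤ ρ p.1 / (p.1 : ℝ)}

/-- For `k = 1`, if `ρ m / m` is non-increasing with divergent sum, then almost every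
`θ ∈ (0, 1 / 3)` admits infinitely many solutions. -/
theorem result (ρ : ℕ → ℝ) (h0 : ∀ m, 0 ≤ ρ m)
    (hmono : ∀ m n : ℕ, 1 ≤ m → m ≤ n → ρ n / (n : ℝ) ≤ ρ m / (m : ℝ))
    (hdiv : Tendsto (fun N : ℕ => ∑ m ∈ Finset.Icc 1 N, ρ m / (m : ℝ)) atTop atTop) :
    ∀ᵐ θ : ℝ, 0 < θ → θ < 1 / 3 → (solutions ρ θ).Infinite := by
  have h1 : ∀ m : ℕ, 0 ≤ ρ m / m := fun m => div_nonneg (h0 m) (Nat.cast_nonneg m)
  have h2 := P.MP_33ac70_nt.Cr.mono_inv h1 (fun m n => hmono m n) fun h => by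
    obtain ⟨N, hN⟩ := (hdiv.eventually_gt_atTop (∑' m : ℕ, ρ m / (m : ℝ))).exists
    exact hN.not_ge (h.sum_le_tsum _ fun m _ => h1 m)
  rw [ae_iff] at h2 ⊢
  refine measure_mono_null (fun θ hθ => ?_)
    (addHaar_image_eq_zero_of_differentiableOn_of_addHaar_eq_zero volume (f := fun x : ℝ => x⁻¹)
      (differentiableOn_inv.mono ?_) h2)
  swap
  · exact fun x hx e => hx fun h => absurd h (by rw [e]; norm_num)
  refine ⟨θ⁻¹, fun h => hθ fun h3 h4 => ?_, inv_inv θ⟩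
  refine Set.Infinite.of_image Prod.fst (Set.infinite_of_forall_exists_gt fun M => ?_)
  obtain ⟨a, b, h5, h6⟩ := h ((lt_inv_comm₀ (by norm_num) h3).2 (by linarith)) (M + 1)
  rw [inv_inv] at h6
  exact ⟨a, ⟨(a, b), h6, rfl⟩, h5⟩

end Pool.Agent.Results.MP_33ac70_nt.MonotoneSmall
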